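import Pool.Agent.H.MP_8f0578_co.B

namespace Pool.Agent.Results.MP_8f0578_co.No

open Pool.Agent.H.MP_696e10_co Pool.Agent.H.MP_8f0578_co

theorem result {G : Type} [Group G] [Fintype G] (S : Set G) (P : G → G → List G)
    (hP : Consistent (SimpleGraph.mulCayley S) P)
    (hI : ∀ g x y, P (g * x) (g * y) = (P x y).map (g * ·)) :
    ∃ ρ : G → G → ℝ, IsMetric ρ ∧ ∀ u v, cost ρ (P u v) ≤ 26 * √(Fintype.card G) * ρ u v :=
  main hP hI

end Pool.Agent.Results.MP_8f0578_co.No
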